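import Pool.Agent.Y245.SC.Stm4

/-!
# Essential singularities in the logarithmic coordinate (job ES-TRE, project ES of helper245)
-/

set_option autoImplicit false

open Complex MeasureTheory Metric Set Filter Topology ComplexConjugate

namespace Pool.Agent.Y67.ES

open Pool.Agent.Y245.SC

theorem neg_conj_pt (ℓ y1 : ℝ) : -(conj (pt ℓ y1)) = (ℓ : ℂ) + y1 * I := by
  unfold pt
  simp only [map_add, map_mul, conj_ofReal, conj_I]
  push_cast
  ring

theorem tre : S_TRE := by
  intro φ ψ ℓ y1 ε hℓ hε hE hφ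
  set w1 : ℂ := exp ((ℓ : ℂ) + y1 * I) with hw1
  set c : ℂ := pt ℓ y1 with hc
  have hcc : -(conj c) = (ℓ : ℂ) + y1 * I := neg_conj_pt ℓ y1
  have hw0 : w1 ≠ 0 := exp_ne_zero _
  set v : ℂ → ℂ := fun ω => exp (-(conj ω)) with hv
  have hvc : v c = w1 := by
    change exp (-(conj c)) = w1
    rw [hcc]
  have hvcont : Continuous v := continuous_exp.comp (continuous_conj.neg)
  obtain ⟨ρ1, hρ1, hball⟩ : ∃ ρ1 > 0, ∀ ω ∈ ball c ρ1, v ω ∈ ball w1 ε := by
    have h1 : ∀ᶠ ω in 𝓝 c, v ω ∈ ball w1 ε :=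
      hvcont.continuousAt.eventually_mem (by rw [hvc]; exact ball_mem_nhds w1 hε)
    obtain ⟨ρ1, h2, h3⟩ := Metric.eventually_nhds_iff_ball.1 h1
    exact ⟨ρ1, h2, h3⟩
  set ρ : ℝ := min ρ1 (min (ℓ / 2) (1 / 2)) with hρ
  have hρ0 : 0 < ρ := lt_min hρ1 (lt_min (by linarith) (by norm_num))
  have hρa : ρ ≤ ρ1 := min_le_left _ _
  have hρb : ρ ≤ ℓ / 2 := (min_le_right _ _).trans (min_le_left _ _)
  have hρc : ρ ≤ 1 / 2 := (min_le_right _ _).trans (min_le_right _ _)
  have hballρ : ∀ ω ∈ ball c ρ, v ω ∈ ball w1 ε := fun ω hω => hball ω (ball_subset_ball hρa hω)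
  have hinj : ∀ ω ∈ ball c ρ, v ω = w1 → ω = c := by
    intro ω hω h
    rw [← hvc] at h
    have h1 : exp (-(conj ω) - -(conj c)) = 1 := by
      rw [exp_sub]
      change v ω / v c = 1
      rw [h]
      exact div_self (exp_ne_zero _)
    obtain ⟨n, hn⟩ := exp_eq_one_iff.1 h1
    have h2 : ‖-(conj ω) - -(conj c)‖ < 1 / 2 := by
      have h3 : -(conj ω) - -(conj c) = -(conj (ω - c)) := by rw [map_sub]; ring
      rw [h3, norm_neg, norm_conj]
      rw [mem_ball, dist_eq_norm] at hω
      linarith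
    rw [hn, norm_mul, norm_intCast, norm_mul, norm_mul, norm_I, mul_one, norm_real,
      Real.norm_of_nonneg Real.pi_pos.le] at h2
    have h4 : |(n : ℝ)| < 1 := by
      have h5 := Real.pi_gt_three
      have h6 : ‖(2 : ℂ)‖ = 2 := by norm_num
      rw [h6] at h2
      nlinarith [abs_nonneg (n : ℝ)]
    have h5 : n = 0 := by
      have h6 : |n| < 1 := by exact_mod_cast h4
      exact Int.abs_lt_one_iff.1 h6
    rw [h5, Int.cast_zero, zero_mul] at hn
    have h7 : conj ω = conj c := by linear_combination -hn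
    exact star_injective h7
  refine ⟨ρ, fun ω => conj (ψ (v ω)), hρ0, by linarith, by linarith, ⟨?_, ?_⟩, ?_⟩
  · -- holomorphic
    intro ω hω
    have h1 : v ω ∈ ball w1 ε := hballρ ω hω.1
    have h2 : v ω ≠ w1 := fun h => hω.2 (hinj ω hω.1 h)
    have hopen : IsOpen (ball w1 ε \ {w1}) := isOpen_ball.sdiff isClosed_singleton
    have h3 : DifferentiableAt ℂ ψ (v ω) :=
      hE.1.differentiableAt (hopen.mem_nhds ⟨h1, h2⟩)
    have h4 : DifferentiableAt ℂ (fun z : ℂ => ψ (exp (-z))) (conj ω) := by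
      refine DifferentiableAt.comp (g := ψ) (f := fun z : ℂ => exp (-z)) (conj ω) h3 ?_
      exact (differentiable_id.neg.cexp).differentiableAt
    have h5 := h4.conj_conj
    rw [conj_conj] at h5
    exact h5.differentiableWithinAt
  · -- growth
    intro m K
    set u : ℂ → ℂ := fun w => c - conj (log (w / w1)) with hu
    have hvu : ∀ w : ℂ, w ≠ 0 → v (u w) = w := by
      intro w hw
      change exp (-(conj (c - conj (log (w / w1))))) = w
      rw [map_sub, conj_conj]
      have h1 : -(conj c - log (w / w1)) = -(conj c) + log (w / w1) := by ring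
      rw [h1, exp_add, exp_log (div_ne_zero hw hw0), hcc, ← hw1]
      field_simp
    have huc : ContinuousAt u w1 := by
      have h1 : ContinuousAt (fun w : ℂ => log (w / w1)) w1 := by
        have h2 : ContinuousAt (fun w : ℂ => w / w1) w1 := continuousAt_id.div_const w1
        refine h2.clog ?_
        rw [div_self hw0]
        exact one_mem_slitPlane
      exact continuousAt_const.sub (continuous_conj.continuousAt.comp h1)
    have hu1 : u w1 = c := by
      change c - conj (log (w1 / w1)) = c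
      rw [div_self hw0, log_one, map_zero, sub_zero]
    have hev0 : ∀ᶠ w in 𝓝[≠] w1, w ≠ 0 :=
      (continuousAt_id.eventually_ne hw0).filter_mono nhdsWithin_le_nhds
    have htu : Tendsto u (𝓝[≠] w1) (𝓝[≠] c) := by
      refine tendsto_nhdsWithin_iff.2 ⟨?_, ?_⟩
      · have h1 : Tendsto u (𝓝 w1) (𝓝 (u w1)) := huc
        rw [hu1] at h1
        exact h1.mono_left nhdsWithin_le_nhds
      · filter_upwards [hev0, self_mem_nhdsWithin] with w h1 h2 h3
        apply h2
        have h4 := hvu w h1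
        rw [h3, hvc] at h4
        exact h4.symm
    refine htu.frequently ?_
    have hL : ∀ᶠ w in 𝓝[≠] w1, ‖log (w / w1)‖ ≤ 1 := by
      have h1 : ContinuousAt (fun w : ℂ => log (w / w1)) w1 := by
        have h2 : ContinuousAt (fun w : ℂ => w / w1) w1 := continuousAt_id.div_const w1
        refine h2.clog ?_
        rw [div_self hw0]
        exact one_mem_slitPlane
      have h2 : Tendsto (fun w : ℂ => ‖log (w / w1)‖) (𝓝 w1) (𝓝 0) := by
        have h3 := h1.norm.tendsto
        rwa [div_self hw0, log_one, norm_zero] at h3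
      exact ((h2.eventually (ge_mem_nhds one_pos))).filter_mono nhdsWithin_le_nhds
    set A : ℝ := 2 * ‖w1‖ with hA
    have hA0 : 0 < A := mul_pos two_pos (norm_pos_iff.2 hw0)
    refine ((hE.2 m (A ^ m * K)).and_eventually (hev0.and hL)).mono ?_
    rintro w ⟨h1, h2, h3⟩
    have h4 : ‖w - w1‖ ≤ A * ‖log (w / w1)‖ := by
      have h5 : w - w1 = w1 * (exp (log (w / w1)) - 1) := by
        rw [exp_log (div_ne_zero h2 hw0)]
        field_simp
      rw [h5, norm_mul, hA, mul_comm 2, mul_assoc]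
      exact mul_le_mul_of_nonneg_left (norm_exp_sub_one_le h3) (norm_nonneg _)
    have h5 : ‖w - w1‖ ^ m ≤ A ^ m * ‖log (w / w1)‖ ^ m := by
      rw [← mul_pow]
      exact pow_le_pow_left₀ (norm_nonneg _) h4 m
    have h6 : A ^ m * K < A ^ m * (‖ψ w‖ * ‖log (w / w1)‖ ^ m) := by
      calc A ^ m * K < ‖ψ w‖ * ‖w - w1‖ ^ m := h1
        _ ≤ ‖ψ w‖ * (A ^ m * ‖log (w / w1)‖ ^ m) :=
            mul_le_mul_of_nonneg_left h5 (norm_nonneg _)
        _ = A ^ m * (‖ψ w‖ * ‖log (w / w1)‖ ^ m) := by ring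
    have h7 := lt_of_mul_lt_mul_left h6 (pow_nonneg hA0.le m)
    have h8 : u w - c = -(conj (log (w / w1))) := by
      change c - conj (log (w / w1)) - c = _
      ring
    change K < ‖conj (ψ (v (u w)))‖ * ‖u w - c‖ ^ m
    rw [hvu w h2, norm_conj, h8, norm_neg, norm_conj]
    exact h7
  · -- the values
    intro ω hω hre
    change conj (ψ (v ω)) = conj (φ (exp (-(conj ω))))
    rw [hφ (v ω) (hballρ ω hω) ?_]
    change ‖exp (-(conj ω))‖ < Real.exp ℓ
    rw [norm_exp, neg_re, conj_re]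
    exact Real.exp_lt_exp.2 (by linarith)

end Pool.Agent.Y67.ES
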